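import Pool.Agent.Y707.SQ.Defs
import Pool.Agent.Y707.DK.Alg

/-! **The class group of the generic curve.** -/

set_option autoImplicit false
set_option maxHeartbeats 400000

namespace Pool.Agent.Y707.SQ

open Polynomial NumberField IsDedekindDomain
open Pool.Agent.Y707.PC Pool.Agent.TH943.HJ
open Pool.Agent.Y707.DK (constants alg_quad sep_gg gg deg_gg)
open Pool.Agent.Y707.DP (IsDickson dickson_deg endRank dd dd_deg factors)

section
variable {K : Type} [Field K] [NumberField K] {k l m : ℕ}
  {G : Fin l → MvPolynomial (Fin k) (𝓞 K)} {a : MvPolynomial (Fin k) (𝓞 K)}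
  {b : (MvPolynomial (Fin k) (𝓞 K))[X][X]}

/-- **The generic curve.** -/
theorem self_algebraic (h : IsDickson m G a) (hb : b.natDegree ≤ m)
    (E : IntermediateField K (AlgebraicClosure K)) {M : Type} [Field M] [Algebra E M]
    {ξ : Fin k → M} {η : Fin l → M} (hM : IsFunctionField G E ξ η) :
    IsSmoothCurve m (genericS m a b E ξ) ∧
      PicFreeOfRank (genericS m a b E ξ) (endRank m E) := by
  classical
  have hconst := constants h.independent E hM
  obtain ⟨hξ, -, -⟩ := hM
  set ι : 𝓞 K →+* E := (algebraMap K E).comp (algebraMap (𝓞 K) K) with hι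
  have hιi : Function.Injective ι := (algebraMap K E).injective.comp
    (IsFractionRing.injective (𝓞 K) K)
  have hmi : Function.Injective (MvPolynomial.map (σ := Fin k) ι) :=
    MvPolynomial.map_injective _ hιi
  have hinj0 : Function.Injective (MvPolynomial.aeval ξ : MvPolynomial (Fin k) E →ₐ[E] M) := hξ
  have hv : ∀ p, valueAt E ξ p = MvPolynomial.aeval ξ (MvPolynomial.map ι p) := by
    intro p
    rw [valueAt_eq]
    rfl
  have ha : valueAt E ξ a ≠ 0 := by
    intro h0
    rw [hv] at h0
    apply h.nonzero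
    apply hmi
    apply hinj0
    rw [h0, map_zero, map_zero]
  have hE0 : CharZero E := charZero_of_injective_algebraMap (algebraMap K E).injective
  have hM0 : CharZero M := charZero_of_injective_algebraMap (algebraMap E M).injective
  let M' := RatFunc M
  have hM'0 : CharZero M' := charZero_of_injective_algebraMap (algebraMap M M').injective
  let L := RatFunc M'
  have hL0 : CharZero L := charZero_of_injective_algebraMap (algebraMap M' L).injective
  obtain ⟨κ, hκ, φ, hcard, hirr, hmon, hinj, hprod⟩ := factors hconst ha m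
  let ψ : (MvPolynomial (Fin k) (𝓞 K))[X] →+* M' :=
    (algebraMap M[X] M').comp (mapRingHom (valueAt E ξ))
  let φ' : Option κ → M'[X] := fun i => (φ i).map (algebraMap M[X] M')
  have hφi : ∀ i, Irreducible (φ' i) := fun i =>
    ((hmon i).irreducible_iff_irreducible_map_fraction_map).1 (hirr i)
  have hφm : ∀ i, (φ' i).Monic := fun i => (hmon i).map _
  have hφinj : Function.Injective φ' := fun i j hij =>
    hinj (Polynomial.map_injective _ (IsFractionRing.injective M[X] M') hij)
  have hprod' : ∏ i, φ' i = dsp m a ψ := by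
    have e1 : ∏ i, φ' i = (∏ i, φ i).map (algebraMap M[X] M') := by
      rw [Polynomial.map_prod]
    have e2 : (mapRingHom (valueAt E ξ)) (C a) = C (valueAt E ξ a) := by
      rw [coe_mapRingHom, Polynomial.map_C]
    have e3 : (mapRingHom (valueAt E ξ)) (dickson 1 a (2 * m + 1)) =
        dickson 1 (valueAt E ξ a) (2 * m + 1) := by
      rw [coe_mapRingHom, map_dickson]
    rw [e1, hprod]
    unfold dd dsp
    rw [Polynomial.map_sub, Polynomial.map_C, Polynomial.map_map, map_dickson]
    show dickson 1 (algebraMap M[X] M' (C (valueAt E ξ a))) (2 * m + 1) - _ =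
      dickson 1 (algebraMap M[X] M' (mapRingHom (valueAt E ξ) (C a))) (2 * m + 1) -
        C (algebraMap M[X] M' (mapRingHom (valueAt E ξ) (dickson 1 a (2 * m + 1))))
    rw [e2, e3]
  have hd := dsp_deg (m := m) (a := a) ψ
  have hb' : 2 * (b.map ψ).natDegree < (∏ i, φ' i).natDegree := by
    rw [hprod', hd.2]
    have := natDegree_map_le (f := ψ) (p := b)
    omega
  have hodd : Odd (∏ i, φ' i).natDegree := by
    rw [hprod', hd.2]
    exact ⟨m, rfl⟩
  have hgen : genericS m a b E ξ = gg (RatFunc.X : RatFunc M') (∏ i, φ' i) (b.map ψ) := by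
    rw [hprod']
    exact spol_gg ψ (RatFunc.X : RatFunc M')
  have hsep := sep_gg (L := RatFunc M') (transc_X (M := M')) hodd hb'
  have hdom : IsDomain (CR (gg (RatFunc.X : RatFunc M') (∏ i, φ' i) (b.map ψ))) :=
    isDomain (deg_gg hodd hb').1
  have hmain := alg_quad (L := RatFunc M') (ω := RatFunc.X) two_ne_zero (transc_X (M := M'))
    ratfunc_hL hφi hφm hφinj hodd hb' hsep.squarefree
  have hsm := spol_deg (m := m) (a := a) hb ((algebraMap M' L).comp ψ) (RatFunc.X : L)
  have hsm1 : (genericS m a b E ξ).Monic ∧ (genericS m a b E ξ).natDegree = 2 * m + 1 := hsm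
  rw [hgen] at hsm1 ⊢
  refine ⟨⟨hsm1.1, hsm1.2, hsep⟩, hdom, hmain.1, hmain.2.1, hmain.2.2.trans ?_⟩
  rw [Fintype.card_option, Nat.add_sub_cancel, hcard]
  rfl

end

end Pool.Agent.Y707.SQ
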