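import Pool.Agent.Y707.SQ.Cnt

/-! The averages of the traces: asymptotics. -/

set_option autoImplicit false
set_option maxHeartbeats 400000

namespace Pool.Agent.Y707.SQ

open Polynomial Finset NumberField
open Pool.Agent.Y707.PC Pool.Agent.Y707.SF
open Pool.Agent.Y707.DK (traceOne traceOne_eq rs sep_of_rs sum_ch_sq_add)
open Pool.Agent.Y707.DP (ts cm count_main IsDickson mem_ts psiF_spec psiF)

section
variable {K : Type} [Field K] [NumberField K] {k l m : ℕ}
  {G : Fin l → MvPolynomial (Fin k) (𝓞 K)} {a : MvPolynomial (Fin k) (𝓞 K)}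
  {b : (MvPolynomial (Fin k) (𝓞 K))[X][X]}
  {κ : Type} [Field κ] [Fintype κ]

theorem arithS {q s qk S T X t B0 c Mm : ℝ} (hq : 0 < q) (hs : 1 ≤ s) (hsq : s ^ 2 = q)
    (hqk : 0 < qk) (hm : |t| ≤ Mm) (h1 : |T| ≤ c * (q * s) * qk)
    (hS : T = S + t * (q ^ 2 * X))
    (h2 : |X - qk| * s ≤ B0 * qk) : |(qk * q ^ 2)⁻¹ * S + t| * s ≤ c + Mm * B0 := by
  have e : (qk * q ^ 2)⁻¹ * S + t = (qk * q ^ 2)⁻¹ * (T - t * q ^ 2 * (X - qk)) := by
    rw [hS]
    field_simp
    ring
  have hpos : 0 < qk * q ^ 2 := by positivity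
  have h0 : 0 ≤ Mm := (abs_nonneg _).trans hm
  have hs0 : 0 < s := by linarith
  rw [e, _root_.abs_mul, abs_of_pos (inv_pos.2 hpos), mul_assoc, inv_mul_le_iff₀ hpos]
  have h3 : |T - t * q ^ 2 * (X - qk)| ≤ c * (q * s) * qk + Mm * q ^ 2 * |X - qk| := by
    refine (abs_sub _ _).trans (add_le_add h1 ?_)
    rw [_root_.abs_mul, _root_.abs_mul, abs_of_pos (by positivity : 0 < q ^ 2)]
    gcongr
  have h4 := mul_le_mul_of_nonneg_left h2 (by positivity : 0 ≤ Mm * q ^ 2)
  calc |T - t * q ^ 2 * (X - qk)| * s ≤ (c * (q * s) * qk + Mm * q ^ 2 * |X - qk|) * s :=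
        mul_le_mul_of_nonneg_right h3 hs0.le
    _ = c * q * qk * s ^ 2 + Mm * q ^ 2 * (|X - qk| * s) := by ring
    _ ≤ c * q * qk * s ^ 2 + Mm * q ^ 2 * (B0 * qk) := by linarith
    _ = qk * q ^ 2 * (c + Mm * B0) := by rw [hsq]; ring

theorem ts_le (κ : Type) [Field κ] (m : ℕ) : ((ts κ m).card : ℝ) ≤ m := by
  classical
  have h3 : (ts κ m).card ≤ m := by
    have h4 : (ts κ m).card ≤ (psiF κ m).roots.card := Multiset.toFinset_card_le _
    have h5 := card_roots' (psiF κ m)
    rw [(psiF_spec m).2] at h5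
    exact h4.trans h5
  exact_mod_cast h3

/-- **The averages.** -/
theorem averageS_asy (h : IsDickson m G a) (hb : b.natDegree ≤ m) :
    ∃ (B : ℝ) (c : 𝓞 K), 0 ≤ B ∧ c ≠ 0 ∧
    ∀ (κ : Type) [Field κ] [Fintype κ] (φ : 𝓞 K →+* κ), φ c ≠ 0 →
      |averageS m G a b φ + (ts κ m).card| * Real.sqrt (Fintype.card κ) ≤ B := by
  classical
  set Δ := sdisc m a b with hΔ
  have hΔ0 : Δ ≠ 0 := sdisc_ne hb
  set N : MvPolynomial (Fin k) (𝓞 K) := (∏ i, G i) * (a * Δ.leadingCoeff.leadingCoeff) with hN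
  have hG : ∀ i, G i ≠ 0 := ne_of_ind h.independent
  have hN0 : N ≠ 0 := mul_ne_zero (prod_ne_zero_iff.2 fun i _ => hG i)
    (mul_ne_zero h.nonzero (leadingCoeff_ne_zero.2 (leadingCoeff_ne_zero.2 hΔ0)))
  obtain ⟨Dg, c, hDg, hc, hfam⟩ := fam_sum hN0
  obtain ⟨B0, c0, hB0, hc0, hnx⟩ := sum_nx h.independent
  set e0 : ℝ := ((Δ.natDegree : ℝ) + Δ.leadingCoeff.natDegree) with he0
  set c1 : ℝ := 2 ^ l * (cm m + e0 * (2 * m)) with hc1
  set c2 : ℝ := 2 ^ l * (3 * m) with hc2
  have hcm : 0 ≤ cm m := by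
    unfold cm
    positivity
  have he00 : 0 ≤ e0 := by positivity
  have hc10 : 0 ≤ c1 := by positivity
  have hc20 : 0 ≤ c2 := by positivity
  refine ⟨c1 + c2 * Dg + m * B0, 2 * ((2 * m + 1 : ℕ) * (c * c0)), by positivity,
    mul_ne_zero two_ne_zero (mul_ne_zero (by exact_mod_cast Nat.succ_ne_zero (2 * m))
      (mul_ne_zero hc hc0)), ?_⟩
  intro κ _ _ φ hφ
  rw [map_mul, map_mul, map_mul, map_ofNat, map_natCast] at hφ
  have h20 : (2 : κ) ≠ 0 := left_ne_zero_of_mul hφ
  have hn : ((2 * m + 1 : ℕ) : κ) ≠ 0 := left_ne_zero_of_mul (right_ne_zero_of_mul hφ)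
  have hφc : φ c ≠ 0 := left_ne_zero_of_mul (right_ne_zero_of_mul (right_ne_zero_of_mul hφ))
  have hφc0 : φ c0 ≠ 0 := right_ne_zero_of_mul (right_ne_zero_of_mul (right_ne_zero_of_mul hφ))
  have h2 : ringChar κ ≠ 2 := ringChar_of_two h20
  obtain ⟨hr1, hr2, hr3⟩ := sqrt_facts κ
  have hq : (0 : ℝ) < Fintype.card κ := by exact_mod_cast Fintype.card_pos (α := κ)
  set s := Real.sqrt (Fintype.card κ) with hs
  set q : ℝ := (Fintype.card κ : ℝ) with hqd
  set t : ℝ := ((ts κ m).card : ℝ) with ht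
  have htb' : t ≤ m := ts_le κ m
  have ht0 : 0 ≤ t := by positivity
  have htb : |t| ≤ m := by
    rw [abs_of_nonneg ht0]
    exact htb'
  have htr : ∀ x z v, |traceOne (memberS m a b φ x z v)| ≤ 2 * m * s :=
    fun x z v => trS_abs hb h2 φ x z v
  set T : (Fin k → κ) → ℝ := fun x =>
    (if ∀ i, MvPolynomial.eval₂Hom φ x (G i) ≠ 0 then nx G φ x * ∑ w : κ × κ,
      (if (memberS m a b φ x w.1 w.2).Separable then traceOne (memberS m a b φ x w.1 w.2) else 0)
      else 0) + nx G φ x * (t * q ^ 2) with hT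
  have hnn : ∀ x, 0 ≤ nx G φ x := fun x => (nx_bd φ x).1
  have hgood : ∀ x, |∑ w : κ × κ, (if (memberS m a b φ x w.1 w.2).Separable then
      traceOne (memberS m a b φ x w.1 w.2) else 0)| ≤ q ^ 2 * (2 * m * s) := by
    intro x
    refine (abs_sum_le_sum_abs _ _).trans ?_
    have h5 : ∀ w ∈ (univ : Finset (κ × κ)), |if (memberS m a b φ x w.1 w.2).Separable then
        traceOne (memberS m a b φ x w.1 w.2) else 0| ≤ 2 * m * s := by
      intro w _
      split_ifs
      · exact htr x w.1 w.2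
      · rw [abs_zero]
        positivity
    refine (sum_le_sum h5).trans (le_of_eq ?_)
    rw [sum_const, card_univ, nsmul_eq_mul, Fintype.card_prod, hqd]
    push_cast
    ring
  have h1 := hfam κ φ hφc T (c1 * (q * s))
    (c2 * (q * s)) (by positivity) (by positivity) (by
      intro x hx
      rw [hN, map_mul, map_mul, map_prod] at hx
      have hG' : ∀ i, MvPolynomial.eval₂Hom φ x (G i) ≠ 0 := fun i =>
        prod_ne_zero_iff.1 (left_ne_zero_of_mul hx) i (mem_univ i)
      have hax : MvPolynomial.eval₂Hom φ x a ≠ 0 := left_ne_zero_of_mul (right_ne_zero_of_mul hx)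
      have hbad := sum_bad (m := m) (a := a) hb h2 φ x
        (right_ne_zero_of_mul (right_ne_zero_of_mul hx))
      have hsum := sum_all (m := m) (a := a) (b := b) h2 φ x
      have hcount := count_main (m := m) h2 hn hax
      rw [← hqd] at hsum hcount
      have e : T x = nx G φ x * ((∑ w : κ × κ, traceOne (memberS m a b φ x w.1 w.2) +
          t * q ^ 2) - ∑ w : κ × κ, (if (memberS m a b φ x w.1 w.2).Separable then 0 else
          traceOne (memberS m a b φ x w.1 w.2))) := by
        have e1 : ∑ w : κ × κ, (if (memberS m a b φ x w.1 w.2).Separable then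
            traceOne (memberS m a b φ x w.1 w.2) else 0) =
            ∑ w : κ × κ, traceOne (memberS m a b φ x w.1 w.2) -
            ∑ w : κ × κ, (if (memberS m a b φ x w.1 w.2).Separable then 0 else
              traceOne (memberS m a b φ x w.1 w.2)) := by
          rw [← sum_sub_distrib]
          refine sum_congr rfl fun w _ => ?_
          split_ifs <;> ring
        simp only [hT]
        rw [if_pos hG', e1]
        ring
      rw [e, _root_.abs_mul, abs_of_nonneg (hnn x), hc1, mul_assoc]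
      refine mul_le_mul (nx_bd φ x).2 ?_ (abs_nonneg _) (by positivity)
      refine (abs_sub _ _).trans ?_
      have h9 : |∑ w : κ × κ, traceOne (memberS m a b φ x w.1 w.2) + t * q ^ 2| ≤
          cm m * (q * s) := by
        rw [hsum]
        have e2 : q ^ 2 - q * ((univ.filter fun p : κ × κ =>
            (dickson 1 (MvPolynomial.eval₂Hom φ x a) (2 * m + 1)).eval p.1 =
            (dickson 1 (MvPolynomial.eval₂Hom φ x a) (2 * m + 1)).eval p.2).card : ℝ) +
            t * q ^ 2 = -(q * (((univ.filter fun p : κ × κ =>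
            (dickson 1 (MvPolynomial.eval₂Hom φ x a) (2 * m + 1)).eval p.1 =
            (dickson 1 (MvPolynomial.eval₂Hom φ x a) (2 * m + 1)).eval p.2).card : ℝ) -
            q * (1 + t))) := by ring
        rw [e2, abs_neg, _root_.abs_mul, abs_of_pos hq]
        have h10 := mul_le_mul_of_nonneg_left hcount hq.le
        refine h10.trans ?_
        have h11 : q ≤ q * s := by nlinarith
        have h12 := mul_le_mul_of_nonneg_left h11 hcm
        linarith
      refine (add_le_add h9 hbad).trans (le_of_eq ?_)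
      ring) (by
      intro x
      have h6 : |T x| ≤ nx G φ x * (q ^ 2 * (2 * m * s) + m * q ^ 2) := by
        simp only [hT]
        have h7 : |nx G φ x * (t * q ^ 2)| ≤ nx G φ x * (m * q ^ 2) := by
          rw [_root_.abs_mul, _root_.abs_mul, abs_of_nonneg (hnn x),
            abs_of_pos (by positivity : 0 < q ^ 2)]
          exact mul_le_mul_of_nonneg_left (mul_le_mul_of_nonneg_right htb (by positivity)) (hnn x)
        by_cases hG' : ∀ i, MvPolynomial.eval₂Hom φ x (G i) ≠ 0
        · rw [if_pos hG']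
          refine (abs_add_le _ _).trans ?_
          rw [mul_add]
          refine add_le_add ?_ h7
          rw [_root_.abs_mul, abs_of_nonneg (hnn x)]
          exact mul_le_mul_of_nonneg_left (hgood x) (hnn x)
        · rw [if_neg hG', zero_add]
          refine h7.trans (mul_le_mul_of_nonneg_left ?_ (hnn x))
          have : 0 ≤ q ^ 2 * (2 * m * s) := by positivity
          linarith
      refine h6.trans ?_
      rw [hc2]
      have h8 := mul_le_mul_of_nonneg_right (nx_bd (G := G) φ x).2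
        (by positivity : 0 ≤ q ^ 2 * (2 * m * s) + m * q ^ 2)
      refine h8.trans ?_
      have h9 : (m : ℝ) * q ^ 2 ≤ m * q ^ 2 * s := le_mul_of_one_le_right (by positivity) hr1
      have h10 : q ^ 2 * (2 * m * s) + m * q ^ 2 ≤ 3 * m * (q * s) * q := by nlinarith
      have h11 := mul_le_mul_of_nonneg_left h10 (by positivity : (0 : ℝ) ≤ 2 ^ l)
      refine h11.trans (le_of_eq ?_)
      ring)
  have h3 : ∑ x, T x = ∑ᶠ P ∈ goodS m G a b φ, traceOne (memberS m a b φ P.1 P.2.2.1 P.2.2.2) +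
      t * (q ^ 2 * ∑ x : Fin k → κ, nx G φ x) := by
    rw [sum_goodS φ h2 fun x w => traceOne (memberS m a b φ x w.1 w.2), mul_sum, mul_sum,
      ← sum_add_distrib]
    refine sum_congr rfl fun x _ => ?_
    simp only [hT]
    ring
  have h4 := hnx κ φ hφc0
  unfold averageS
  rw [Nat.card_eq_fintype_card, pow_add _ k 2]
  refine arithS (c := c1 + c2 * Dg) hq hr1 hr2 (by positivity) htb ?_ h3 h4
  refine h1.trans (le_of_eq ?_)
  ring

end

end Pool.Agent.Y707.SQ
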