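import Pool.Agent.Y707.SQ.Defs
import Pool.Agent.Y707.DP.Asy

/-! The sums of the traces. -/

set_option autoImplicit false
set_option maxHeartbeats 400000

namespace Pool.Agent.Y707.SQ

open Polynomial Finset NumberField
open Pool.Agent.Y707.PC Pool.Agent.Y707.SF
open Pool.Agent.Y707.DK (traceOne traceOne_eq rs sep_of_rs sum_ch_sq_add)
open Pool.Agent.Y707.DP (ts cm count_main IsDickson)

section
variable {K : Type} [Field K] [NumberField K] {k l m : ℕ}
  {G : Fin l → MvPolynomial (Fin k) (𝓞 K)} {a : MvPolynomial (Fin k) (𝓞 K)}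
  {b : (MvPolynomial (Fin k) (𝓞 K))[X][X]}
  {κ : Type} [Field κ] [Fintype κ]

open Classical in
theorem sum_goodS (φ : 𝓞 K →+* κ) (h2 : ringChar κ ≠ 2) (T : (Fin k → κ) → κ × κ → ℝ) :
    ∑ᶠ P ∈ goodS m G a b φ, T P.1 P.2.2 = ∑ x : Fin k → κ,
      if ∀ i, MvPolynomial.eval₂Hom φ x (G i) ≠ 0 then
      nx G φ x * ∑ w : κ × κ, (if (memberS m a b φ x w.1 w.2).Separable then T x w else 0)
      else 0 := by
  rw [finsum_mem_def, finsum_eq_sum_of_fintype]
  have h3 : (∑ P : (Fin k → κ) × (Fin l → κ) × κ × κ, (goodS m G a b φ).indicator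
      (fun P => T P.1 P.2.2) P) = ∑ z : (Fin k → κ) × (Fin l → κ) × κ × κ,
        if ((∀ i, z.2.1 i ^ 2 =
        MvPolynomial.eval₂Hom φ z.1 (G i)) ∧ (∀ i, MvPolynomial.eval₂Hom φ z.1 (G i) ≠ 0) ∧
        (memberS m a b φ z.1 z.2.2.1 z.2.2.2).Separable) then T z.1 z.2.2 else 0 := by
    refine sum_congr rfl fun z _ => ?_
    rw [Set.indicator_apply]
    refine if_congr ?_ rfl rfl
    unfold goodS
    rw [Set.mem_setOf_eq]
    constructor
    · rintro ⟨-, h, hs⟩
      exact ⟨fun i => (h i).1, fun i h0 => (h i).2 (eq_zero_of_pow_eq_zero ((h i).1.trans h0)), hs⟩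
    · rintro ⟨h, hG, hs⟩
      exact ⟨Ring.two_ne_zero h2, fun i => ⟨h i, fun h0 => hG i (by
        rw [← h i, h0, zero_pow two_ne_zero])⟩, hs⟩
  rw [h3, Fintype.sum_prod_type]
  refine sum_congr rfl fun x _ => ?_
  rw [Fintype.sum_prod_type]
  by_cases hG : ∀ i, MvPolynomial.eval₂Hom φ x (G i) ≠ 0
  · rw [if_pos hG, nx, ← card_sqrts h2, sum_mul]
    refine sum_congr rfl fun y _ => ?_
    rw [mul_sum]
    refine sum_congr rfl fun w _ => ?_
    by_cases h4 : ∀ i, y i ^ 2 = MvPolynomial.eval₂Hom φ x (G i)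
    · rw [if_pos h4, one_mul]
      by_cases h5 : (memberS m a b φ x w.1 w.2).Separable
      · rw [if_pos h5, if_pos ⟨h4, hG, h5⟩]
      · rw [if_neg h5, if_neg fun h => h5 h.2.2]
    · rw [if_neg h4, zero_mul, if_neg fun h => h4 h.1]
  · rw [if_neg hG]
    refine sum_eq_zero fun y _ => sum_eq_zero fun w _ => ?_
    rw [if_neg fun h => hG h.2.1]

theorem trS_abs (hb : b.natDegree ≤ m) (h2 : ringChar κ ≠ 2) (φ : 𝓞 K →+* κ) (x : Fin k → κ)
    (z v : κ) : |traceOne (memberS m a b φ x z v)| ≤ 2 * m * Real.sqrt (Fintype.card κ) := by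
  rw [traceOne_eq h2, abs_neg]
  have h3 := spol_deg (m := m) (a := a) hb (eval₂RingHom (MvPolynomial.eval₂Hom φ x) z) v
  exact weil_odd h2 h3.1 h3.2

omit [Fintype κ] in
theorem dsp_eval (φ : 𝓞 K →+* κ) (x : Fin k → κ) (z t : κ) :
    (dsp m a (eval₂RingHom (MvPolynomial.eval₂Hom φ x) z)).eval t =
      (dickson 1 (MvPolynomial.eval₂Hom φ x a) (2 * m + 1)).eval t -
      (dickson 1 (MvPolynomial.eval₂Hom φ x a) (2 * m + 1)).eval z := by
  unfold dsp
  rw [eval_sub, eval_C, coe_eval₂RingHom, eval₂_C, ← eval_map, map_dickson]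

open Classical in
/-- the sum over all members -/
theorem sum_all (h2 : ringChar κ ≠ 2) (φ : 𝓞 K →+* κ) (x : Fin k → κ) :
    ∑ w : κ × κ, traceOne (memberS m a b φ x w.1 w.2) = (Fintype.card κ : ℝ) ^ 2 -
      Fintype.card κ * ((univ.filter fun p : κ × κ =>
        (dickson 1 (MvPolynomial.eval₂Hom φ x a) (2 * m + 1)).eval p.1 =
        (dickson 1 (MvPolynomial.eval₂Hom φ x a) (2 * m + 1)).eval p.2).card : ℝ) := by
  simp only [traceOne_eq h2]
  rw [sum_neg_distrib, Fintype.sum_prod_type]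
  have h3 : ∀ z t : κ, ∑ v : κ, ch ((memberS m a b φ x z v).eval t) =
      (if (dickson 1 (MvPolynomial.eval₂Hom φ x a) (2 * m + 1)).eval z =
        (dickson 1 (MvPolynomial.eval₂Hom φ x a) (2 * m + 1)).eval t
        then (Fintype.card κ : ℝ) else 0) - 1 := by
    intro z t
    have h4 := sum_ch_sq_add h2 ((dickson 1 (MvPolynomial.eval₂Hom φ x a) (2 * m + 1)).eval t -
      (dickson 1 (MvPolynomial.eval₂Hom φ x a) (2 * m + 1)).eval z)
    have h5 : (if (dickson 1 (MvPolynomial.eval₂Hom φ x a) (2 * m + 1)).eval z =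
        (dickson 1 (MvPolynomial.eval₂Hom φ x a) (2 * m + 1)).eval t
        then (Fintype.card κ : ℝ) else 0) = if (dickson 1 (MvPolynomial.eval₂Hom φ x a)
        (2 * m + 1)).eval t - (dickson 1 (MvPolynomial.eval₂Hom φ x a) (2 * m + 1)).eval z = 0
        then (Fintype.card κ : ℝ) else 0 :=
      if_congr (by rw [sub_eq_zero, eq_comm]) rfl rfl
    rw [h5, ← h4]
    refine Fintype.sum_equiv (Equiv.addRight
      ((b.map (eval₂RingHom (MvPolynomial.eval₂Hom φ x) z)).eval t)) _ _ fun v => ?_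
    unfold memberS spol
    rw [eval_add, eval_pow, eval_add, eval_C, dsp_eval]
    rfl
  have h6 : ∀ z : κ, ∑ v : κ, ∑ t : κ, ch ((memberS m a b φ x z v).eval t) =
      ∑ t : κ, ((if (dickson 1 (MvPolynomial.eval₂Hom φ x a) (2 * m + 1)).eval z =
        (dickson 1 (MvPolynomial.eval₂Hom φ x a) (2 * m + 1)).eval t
        then (Fintype.card κ : ℝ) else 0) - 1) := by
    intro z
    rw [sum_comm]
    exact sum_congr rfl fun t _ => h3 z t
  rw [sum_congr rfl fun z _ => h6 z, ← Fintype.sum_prod_type' (f := fun z t : κ =>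
    (if (dickson 1 (MvPolynomial.eval₂Hom φ x a) (2 * m + 1)).eval z =
      (dickson 1 (MvPolynomial.eval₂Hom φ x a) (2 * m + 1)).eval t
      then (Fintype.card κ : ℝ) else 0) - 1), sum_sub_distrib, ← sum_filter, sum_const, sum_const,
    card_univ, Fintype.card_prod, nsmul_eq_mul, nsmul_eq_mul]
  push_cast
  ring

open Classical in
/-- the members which are not smooth -/
theorem sum_bad (hb : b.natDegree ≤ m) (h2 : ringChar κ ≠ 2) (φ : 𝓞 K →+* κ) (x : Fin k → κ)
    (hx : MvPolynomial.eval₂Hom φ x (sdisc m a b).leadingCoeff.leadingCoeff ≠ 0) :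
    |∑ w : κ × κ, (if (memberS m a b φ x w.1 w.2).Separable then 0 else
      traceOne (memberS m a b φ x w.1 w.2))| ≤
      ((sdisc m a b).natDegree + (sdisc m a b).leadingCoeff.natDegree) *
        (Fintype.card κ * (2 * m * Real.sqrt (Fintype.card κ))) := by
  set P := sdisc m a b with hP
  set c : ℝ := 2 * m * Real.sqrt (Fintype.card κ) with hc
  have hc0 : 0 ≤ c := by positivity
  have h1 : ∀ z v : κ, |if (memberS m a b φ x z v).Separable then (0 : ℝ) else
      traceOne (memberS m a b φ x z v)| ≤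
      if (P.map (eval₂RingHom (MvPolynomial.eval₂Hom φ x) z)).eval v = 0 then c else 0 := by
    intro z v
    split_ifs with h6 h7 h7
    · rw [abs_zero]
      exact hc0
    · rw [abs_zero]
    · exact trS_abs hb h2 φ x z v
    · refine (h6 (sep_of_rs (g := m) (spol_deg hb _ v).2 ?_)).elim
      rw [hP, sdisc_eval] at h7
      exact h7
  have h3 : ∀ z : κ, ∑ v : κ, |if (memberS m a b φ x z v).Separable then (0 : ℝ) else
      traceOne (memberS m a b φ x z v)| ≤ P.natDegree * c +
      (if (P.leadingCoeff.map (MvPolynomial.eval₂Hom φ x)).eval z = 0 then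
        Fintype.card κ * c else 0) := by
    intro z
    refine (sum_le_sum fun v _ => h1 z v).trans ?_
    rw [← sum_filter, sum_const, nsmul_eq_mul]
    by_cases hz : (P.leadingCoeff.map (MvPolynomial.eval₂Hom φ x)).eval z = 0
    · rw [if_pos hz]
      refine le_add_of_nonneg_of_le (by positivity) (mul_le_mul_of_nonneg_right ?_ hc0)
      exact_mod_cast card_le_univ _
    · rw [if_neg hz, add_zero]
      refine mul_le_mul_of_nonneg_right ?_ hc0
      have hne : P.map (eval₂RingHom (MvPolynomial.eval₂Hom φ x) z) ≠ 0 := by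
        intro h0
        apply hz
        have := congrArg (fun q => coeff q P.natDegree) h0
        simp only [coeff_map, coeff_natDegree, coeff_zero] at this
        rw [eval_map]
        exact this
      refine (card_zeros hne).trans ?_
      exact_mod_cast natDegree_map_le
  have hne2 : P.leadingCoeff.map (MvPolynomial.eval₂Hom φ x) ≠ 0 := SF.map_ne hx
  refine (abs_sum_le_sum_abs _ _).trans ?_
  rw [Fintype.sum_prod_type]
  refine (sum_le_sum fun z _ => h3 z).trans ?_
  rw [sum_add_distrib, sum_const, card_univ, nsmul_eq_mul, ← sum_filter, sum_const, nsmul_eq_mul]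
  have h4 : ((univ.filter fun z : κ => (P.leadingCoeff.map (MvPolynomial.eval₂Hom φ x)).eval z =
      0).card : ℝ) ≤ P.leadingCoeff.natDegree := by
    refine (card_zeros hne2).trans ?_
    exact_mod_cast natDegree_map_le
  have h5 := mul_le_mul_of_nonneg_right h4
    (by positivity : (0 : ℝ) ≤ Fintype.card κ * c)
  linarith

end

end Pool.Agent.Y707.SQ
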