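import Pool.Agent.Y707.DP.Defs
import Pool.Agent.Y707.DP.Cn4
import Pool.Agent.Y707.DK.Tau

/-!
# The curves `Y ^ 2 = D_n(X, a) - D_n(z, a) + (v + b(z, X)) ^ 2`

`D_n(X, a)` is the Dickson polynomial: `D_n(u + a / u, a) = u ^ n + (a / u) ^ n`, and `n = 2 m + 1` is
odd.  The coefficient `a` is a polynomial in `x_1, …, x_k`, and `b` is a polynomial of degree at most
`m` in `X` whose coefficients are polynomials in `x_1, …, x_k` and `z`; they are functions on the variety
with the equations `y_i ^ 2 = G_i(x)`.  For `b = 0` this is the curve `C` with the equation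
`Y ^ 2 = D_n(X, a) + w`, over the function field of the same curve `v ^ 2 = D_n(z, a) + w`.
-/

set_option autoImplicit false
set_option maxHeartbeats 400000

namespace Pool.Agent.Y707.SQ

open Polynomial NumberField IsDedekindDomain
open Pool.Agent.Y707.PC (valueAt)
open Pool.Agent.Y707.DK (traceOne rs rs_map rs_ne gg cc sep_gg deg_gg)
open Pool.Agent.Y707.DP (IsDickson dickson_deg endRank dd)

section
variable {K : Type} [Field K] {k l : ℕ}

/-- The polynomial `D_n(X, a) - D_n(z, a)`, `n = 2 m + 1`, with the coefficients mapped by `ψ`. -/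
noncomputable def dsp (m : ℕ) (a : MvPolynomial (Fin k) (𝓞 K)) {B : Type} [CommRing B]
    (ψ : (MvPolynomial (Fin k) (𝓞 K))[X] →+* B) : B[X] :=
  dickson 1 (ψ (C a)) (2 * m + 1) - C (ψ (dickson 1 a (2 * m + 1)))

/-- The polynomial `D_n(X, a) - D_n(z, a) + (v + b) ^ 2`, with the coefficients mapped by `ψ`. -/
noncomputable def spol (m : ℕ) (a : MvPolynomial (Fin k) (𝓞 K))
    (b : (MvPolynomial (Fin k) (𝓞 K))[X][X]) {B : Type} [CommRing B]
    (ψ : (MvPolynomial (Fin k) (𝓞 K))[X] →+* B) (v : B) : B[X] :=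
  dsp m a ψ + (C v + b.map ψ) ^ 2

/-- The generic member over `M(z)(v)`, at the point `ξ` with coordinates in the field `M ⊇ E`. -/
noncomputable def genericS (m : ℕ) (a : MvPolynomial (Fin k) (𝓞 K))
    (b : (MvPolynomial (Fin k) (𝓞 K))[X][X]) (E : IntermediateField K (AlgebraicClosure K))
    {M : Type} [Field M] [Algebra E M] (ξ : Fin k → M) : (RatFunc (RatFunc M))[X] :=
  spol m a b ((algebraMap (RatFunc M) (RatFunc (RatFunc M))).comp
    ((algebraMap M[X] (RatFunc M)).comp (mapRingHom (valueAt E ξ)))) RatFunc.X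

/-- The member at the point `(x, z, v)` over the field `κ`. -/
noncomputable def memberS (m : ℕ) (a : MvPolynomial (Fin k) (𝓞 K))
    (b : (MvPolynomial (Fin k) (𝓞 K))[X][X]) {κ : Type} [Field κ] (φ : 𝓞 K →+* κ)
    (x : Fin k → κ) (z v : κ) : κ[X] :=
  spol m a b (eval₂RingHom (MvPolynomial.eval₂Hom φ x) z) v

/-- The points `(x, y, z, v)` of the base over the field `κ` of characteristic other than two, with
nonzero `y_i`, over which the curve is smooth. -/
def goodS (m : ℕ) (G : Fin l → MvPolynomial (Fin k) (𝓞 K)) (a : MvPolynomial (Fin k) (𝓞 K))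
    (b : (MvPolynomial (Fin k) (𝓞 K))[X][X]) {κ : Type} [Field κ] (φ : 𝓞 K →+* κ) :
    Set ((Fin k → κ) × (Fin l → κ) × κ × κ) :=
  {P | (2 : κ) ≠ 0 ∧ (∀ i, P.2.1 i ^ 2 = MvPolynomial.eval₂Hom φ P.1 (G i) ∧ P.2.1 i ≠ 0) ∧
    (memberS m a b φ P.1 P.2.2.1 P.2.2.2).Separable}

/-- The fibre average `q^{-(k + 2)} ∑ a(fibre)` of the traces on `H¹` over the good points of the base,
of dimension `k + 2`. -/
noncomputable def averageS (m : ℕ) (G : Fin l → MvPolynomial (Fin k) (𝓞 K))
    (a : MvPolynomial (Fin k) (𝓞 K)) (b : (MvPolynomial (Fin k) (𝓞 K))[X][X]) {κ : Type} [Field κ]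
    (φ : 𝓞 K →+* κ) : ℝ :=
  ((Nat.card κ : ℝ) ^ (k + 2))⁻¹ *
    ∑ᶠ P ∈ goodS m G a b φ, traceOne (memberS m a b φ P.1 P.2.2.1 P.2.2.2)

end

section
variable {K : Type} [Field K] {k l m : ℕ} {G : Fin l → MvPolynomial (Fin k) (𝓞 K)}
  {a : MvPolynomial (Fin k) (𝓞 K)} {b : (MvPolynomial (Fin k) (𝓞 K))[X][X]}

theorem dsp_map {B D : Type} [CommRing B] [CommRing D]
    (ψ : (MvPolynomial (Fin k) (𝓞 K))[X] →+* B) (θ : B →+* D) :
    (dsp m a ψ).map θ = dsp m a (θ.comp ψ) := by
  unfold dsp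
  rw [Polynomial.map_sub, map_dickson, Polynomial.map_C]
  rfl

theorem spol_map {B D : Type} [CommRing B] [CommRing D]
    (ψ : (MvPolynomial (Fin k) (𝓞 K))[X] →+* B) (v : B) (θ : B →+* D) :
    (spol m a b ψ v).map θ = spol m a b (θ.comp ψ) (θ v) := by
  unfold spol
  rw [Polynomial.map_add, Polynomial.map_pow, Polynomial.map_add, Polynomial.map_map, dsp_map,
    Polynomial.map_C]

theorem dsp_deg {B : Type} [CommRing B] [Nontrivial B]
    (ψ : (MvPolynomial (Fin k) (𝓞 K))[X] →+* B) :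
    (dsp m a ψ).Monic ∧ (dsp m a ψ).natDegree = 2 * m + 1 := by
  obtain ⟨h1, h2⟩ := dickson_deg (ψ (C a)) (2 * m)
  have h3 : (C (ψ (dickson 1 a (2 * m + 1)))).natDegree <
      (dickson 1 (ψ (C a)) (2 * m + 1)).natDegree := by
    rw [natDegree_C, h2]
    omega
  unfold dsp
  exact ⟨h1.sub_of_left (degree_lt_degree h3), by
    rw [natDegree_sub_eq_left_of_natDegree_lt h3, h2]⟩

theorem spol_deg {B : Type} [CommRing B] [Nontrivial B] (hb : b.natDegree ≤ m)
    (ψ : (MvPolynomial (Fin k) (𝓞 K))[X] →+* B) (v : B) :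
    (spol m a b ψ v).Monic ∧ (spol m a b ψ v).natDegree = 2 * m + 1 := by
  obtain ⟨h1, h2⟩ := dsp_deg (m := m) (a := a) ψ
  have h3 : ((C v + b.map ψ) ^ 2).natDegree < (dsp m a ψ).natDegree := by
    rw [h2]
    have h4 : (C v + b.map ψ).natDegree ≤ m := by
      refine (natDegree_add_le _ _).trans (max_le (by rw [natDegree_C]; omega) ?_)
      exact natDegree_map_le.trans hb
    have h5 := natDegree_pow_le_of_le 2 h4
    omega
  constructor
  · exact h1.add_of_left (degree_lt_degree h3)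
  · unfold spol
    rw [natDegree_add_eq_left_of_natDegree_lt h3, h2]

/-- the generic member as `D + (ω + b) ^ 2` -/
theorem spol_gg {M L : Type} [Field M] [Field L] [Algebra M L]
    (ψ : (MvPolynomial (Fin k) (𝓞 K))[X] →+* M) (ω : L) :
    spol m a b ((algebraMap M L).comp ψ) ω = gg ω (dsp m a ψ) (b.map ψ) := by
  unfold spol gg cc
  rw [← dsp_map, Pool.Agent.Y707.PC.up_def, Pool.Agent.Y707.PC.up_def, Polynomial.map_map]

end

section
variable {K : Type} [Field K] [NumberField K] {k l m : ℕ}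
  {a : MvPolynomial (Fin k) (𝓞 K)} {b : (MvPolynomial (Fin k) (𝓞 K))[X][X]}

variable (m a b) in
/-- the discriminant of the generic member -/
noncomputable def sdisc : (MvPolynomial (Fin k) (𝓞 K))[X][X] :=
  rs m (spol m a b (C : (MvPolynomial (Fin k) (𝓞 K))[X] →+* _) X)

theorem sdisc_ne (hb : b.natDegree ≤ m) : sdisc m a b ≠ 0 := by
  intro h0
  let A := (MvPolynomial (Fin k) (𝓞 K))[X]
  let M := FractionRing A
  let L := RatFunc M
  let θ : A[X] →+* L := (algebraMap M[X] L).comp (mapRingHom (algebraMap A M))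
  have hinj : Function.Injective (algebraMap A M) := IsFractionRing.injective A M
  have hA0 : CharZero A := charZero_of_injective_ringHom
    (f := (C : MvPolynomial (Fin k) (𝓞 K) →+* A)) C_injective
  have hM0 : CharZero M := charZero_of_injective_algebraMap hinj
  have hL0 : CharZero L := charZero_of_injective_algebraMap (algebraMap M L).injective
  have h1 := (rs_map (g := m) (B := A[X]) (D := L)
    (spol m a b (B := A[X]) (C : A →+* A[X]) X) θ).trans
    (congrArg (rs m) (spol_map (B := A[X]) (D := L) (C : A →+* A[X]) X θ))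
  have h0' : rs m (spol m a b (B := A[X]) (C : A →+* A[X]) X) = 0 := h0
  rw [h0', map_zero] at h1
  have hX : θ X = RatFunc.X := by
    show (algebraMap M[X] L) ((X : A[X]).map (algebraMap A M)) = _
    rw [Polynomial.map_X, RatFunc.algebraMap_X]
  have hC' : θ.comp C = (algebraMap M L).comp (algebraMap A M) := RingHom.ext fun z => by
    show (algebraMap M[X] L) ((C z : A[X]).map (algebraMap A M)) = _
    rw [Polynomial.map_C]
    rfl
  rw [hX, hC', spol_gg] at h1
  have hd := dsp_deg (m := m) (a := a) (algebraMap A M)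
  have hb' : 2 * (b.map (algebraMap A M)).natDegree < (dsp m a (algebraMap A M)).natDegree := by
    rw [hd.2]
    have := natDegree_map_le (f := algebraMap A M) (p := b)
    omega
  have hodd : Odd (dsp m a (algebraMap A M)).natDegree := by
    rw [hd.2]
    exact ⟨m, rfl⟩
  have h2 := sep_gg (L := L) (Pool.Agent.Y707.PC.transc_X (M := M)) hodd hb'
  have h3 := (deg_gg (ω := (RatFunc.X : L)) hodd hb').2
  rw [hd.2] at h3
  exact rs_ne h3 h2 h1.symm

theorem sdisc_eval {κ : Type} [Field κ] (φ : 𝓞 K →+* κ) (x : Fin k → κ) (z v : κ) :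
    ((sdisc m a b).map (eval₂RingHom (MvPolynomial.eval₂Hom φ x) z)).eval v =
      rs m (memberS m a b φ x z v) := by
  have h1 := (rs_map (g := m) (B := (MvPolynomial (Fin k) (𝓞 K))[X][X]) (D := κ)
    (spol m a b (B := (MvPolynomial (Fin k) (𝓞 K))[X][X])
      (C : (MvPolynomial (Fin k) (𝓞 K))[X] →+* _) X)
    (eval₂RingHom (eval₂RingHom (MvPolynomial.eval₂Hom φ x) z) v)).trans
    (congrArg (rs m) (spol_map (B := (MvPolynomial (Fin k) (𝓞 K))[X][X]) (D := κ)
      (C : (MvPolynomial (Fin k) (𝓞 K))[X] →+* _) X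
      (eval₂RingHom (eval₂RingHom (MvPolynomial.eval₂Hom φ x) z) v)))
  have e1 : (eval₂RingHom (eval₂RingHom (MvPolynomial.eval₂Hom φ x) z) v).comp C =
      eval₂RingHom (MvPolynomial.eval₂Hom φ x) z :=
    RingHom.ext fun p => by rw [RingHom.comp_apply, coe_eval₂RingHom, eval₂_C]
  have e2 : eval₂RingHom (eval₂RingHom (MvPolynomial.eval₂Hom φ x) z) v X = v := by
    rw [coe_eval₂RingHom, eval₂_X]
  rw [e1, e2] at h1
  rw [eval_map]
  exact h1

end

end Pool.Agent.Y707.SQ
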