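import Pool.Agent.Y707.SQ.Asy
import Pool.Agent.Y707.SQ.Alg
import Pool.Agent.Y707.DP.Fin

/-! **The residues and the natural averages.** -/

set_option autoImplicit false
set_option maxHeartbeats 400000

namespace Pool.Agent.Y707.SQ

open Polynomial NumberField IsDedekindDomain Filter Topology
open Pool.Agent.Y707.PC Pool.Agent.Y707.PR
open Pool.Agent.Y707.DK (numFactors nrv nr nrv_le residue_nr bound_fin one_le_sqrt_nm natural_nr)
open Pool.Agent.Y707.DP (psiO nr_psi psiF ts IsDickson endRank psi_monic_deg psi_sep)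
open Pool.Agent.H921R2.TatePole (nm two_le_nm)

section
variable {K : Type} [Field K] [NumberField K] {k l m : ℕ}
  {G : Fin l → MvPolynomial (Fin k) (𝓞 K)} {a : MvPolynomial (Fin k) (𝓞 K)}
  {b : (MvPolynomial (Fin k) (𝓞 K))[X][X]}

theorem psiO_monic (R : Type) [CommRing R] (m : ℕ) : (psiO R m).Monic :=
  (psi_monic_deg m).1.map _

theorem psiO_map (E : IntermediateField K (AlgebraicClosure K)) [NumberField E] :
    (psiO (𝓞 E) m).map (algebraMap (𝓞 E) E) = psiF E m := by
  unfold psiO psiF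
  rw [Polynomial.map_map]
  congr 1

theorem psiO_sep (E : IntermediateField K (AlgebraicClosure K)) [NumberField E] :
    ((psiO (𝓞 E) m).map (algebraMap (𝓞 E) E)).Separable := by
  have hE0 : CharZero E := charZero_of_injective_algebraMap (algebraMap K E).injective
  rw [psiO_map]
  exact psi_sep two_ne_zero (by exact_mod_cast Nat.succ_ne_zero (2 * m))

variable (m G a b) in
/-- the averages at the primes of `E` -/
noncomputable def avS (E : IntermediateField K (AlgebraicClosure K)) [NumberField E]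
    (v : HeightOneSpectrum (𝓞 E)) : ℝ :=
  averageS m G a b ((Ideal.Quotient.mk v.asIdeal).comp (algebraMap (𝓞 K) (𝓞 E)))

/-- the asymptotics at the primes of `E` -/
theorem avS_asy (h : IsDickson m G a) (hb : b.natDegree ≤ m)
    (E : IntermediateField K (AlgebraicClosure K)) [NumberField E] :
    ∃ B : ℝ, ∀ᶠ v in cofinite, |-avS m G a b E v -
      nrv (psiO (𝓞 E) m) v| * Real.sqrt (nm v) ≤ B := by
  obtain ⟨B, c, hB, hc, hasy⟩ := averageS_asy h hb
  refine ⟨B, ?_⟩
  have hc' : algebraMap (𝓞 K) (𝓞 E) c ≠ 0 := by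
    intro h0
    exact hc ((map_eq_zero_iff _ (FaithfulSMul.algebraMap_injective (𝓞 K) (𝓞 E))).1 h0)
  filter_upwards [ae_notMem hc'] with v hv
  have hfin := Pool.Agent.H341R2.finite_v v
  let _ := Fintype.ofFinite (𝓞 E ⧸ v.asIdeal)
  have h3 := hasy (𝓞 E ⧸ v.asIdeal) ((Ideal.Quotient.mk v.asIdeal).comp
    (algebraMap (𝓞 K) (𝓞 E))) (by
      rw [RingHom.comp_apply, Ne, Ideal.Quotient.eq_zero_iff_mem]
      exact hv)
  have e1 : Fintype.card (𝓞 E ⧸ v.asIdeal) = nm v := by
    rw [← Nat.card_eq_fintype_card]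
    rfl
  have e2 : nrv (psiO (𝓞 E) m) v = (ts (𝓞 E ⧸ v.asIdeal) m).card := nr_psi m _
  rw [e1, ← e2] at h3
  refine le_trans (le_of_eq ?_) h3
  congr 1
  rw [← abs_neg]
  congr 1
  unfold avS
  ring

theorem avS_bound (h : IsDickson m G a) (hb : b.natDegree ≤ m)
    (E : IntermediateField K (AlgebraicClosure K)) [NumberField E] :
    ∃ B : ℝ, ∀ v, |-avS m G a b E v| ≤ B := by
  obtain ⟨B, hB⟩ := avS_asy h hb E
  refine bound_fin (B := B + (psiO (𝓞 E) m).natDegree) ?_
  filter_upwards [hB] with v hv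
  have h1 := one_le_sqrt_nm v
  have h2 : |-avS m G a b E v - nrv (psiO (𝓞 E) m) v| ≤ B :=
    (le_mul_of_one_le_right (abs_nonneg _) h1).trans hv
  have h3 : (nrv (psiO (𝓞 E) m) v : ℝ) ≤ (psiO (𝓞 E) m).natDegree := by
    exact_mod_cast nrv_le (psiO_monic _ m) v
  have h4 : (0 : ℝ) ≤ nrv (psiO (𝓞 E) m) v := Nat.cast_nonneg _
  have e : -avS m G a b E v = (-avS m G a b E v - nrv (psiO (𝓞 E) m) v) +
      nrv (psiO (𝓞 E) m) v := by ring
  rw [e]
  refine (abs_add_le _ _).trans (add_le_add h2 ?_)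
  rw [abs_of_nonneg h4]
  exact h3

theorem rank_eq (E : IntermediateField K (AlgebraicClosure K)) [NumberField E] :
    (((0 : ℤ) + numFactors ((psiO (𝓞 E) m).map (algebraMap (𝓞 E) E)) : ℤ) : ℝ) =
      (endRank m E : ℝ) := by
  rw [psiO_map]
  unfold endRank psiF
  push_cast
  ring

/-- **The residue.** -/
theorem self_residue (h : IsDickson m G a) (hb : b.natDegree ≤ m)
    (E : IntermediateField K (AlgebraicClosure K)) [NumberField E]
    (R : Finset (HeightOneSpectrum (𝓞 E))) :
    HasResidue R (fun v => -averageS m G a b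
      ((Ideal.Quotient.mk v.asIdeal).comp (algebraMap (𝓞 K) (𝓞 E)))) 1 (endRank m E) := by
  classical
  obtain ⟨B, hB⟩ := avS_asy h hb E
  obtain ⟨B', hB'⟩ := avS_bound h hb E
  constructor
  · intro s hs
    have h1 := summable_log (F := E) (c := fun v => ((-avS m G a b E v : ℝ) : ℂ)) (B := B')
      (fun v => by
        rw [Complex.norm_real]
        exact hB' v) hs
    exact h1.comp_injective Subtype.val_injective
  · obtain ⟨H, hH, hw⟩ := residue_nr (psiO_monic _ m) (psiO_sep E) hB hB' 0 R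
    refine ⟨H, by rw [Complex.ofReal_one]; exact hH, ?_⟩
    rw [Complex.ofReal_one]
    filter_upwards [hw] with s hs h1
    rw [series_eq]
    have h2 := hs h1
    have h3 : (((0 : ℤ) + numFactors ((psiO (𝓞 E) m).map (algebraMap (𝓞 E) E)) : ℤ) : ℂ) =
        ((endRank m E : ℝ) : ℂ) := by
      rw [← rank_eq (m := m) E]
      push_cast
      rfl
    rw [h3] at h2
    rw [← h2]
    refine tsum_congr fun v => ?_
    congr 2
    split_ifs
    · rfl
    · push_cast
      unfold avS
      ring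

/-- **The natural averages.** -/
theorem self_natural (h : IsDickson m G a) (hb : b.natDegree ≤ m)
    (E : IntermediateField K (AlgebraicClosure K)) [NumberField E]
    (R : Finset (HeightOneSpectrum (𝓞 E))) :
    Tendsto (Pool.Agent.W353.FB.average R fun v => -averageS m G a b
      ((Ideal.Quotient.mk v.asIdeal).comp (algebraMap (𝓞 K) (𝓞 E)))) atTop
      (𝓝 (endRank m E : ℝ)) := by
  obtain ⟨B, hB⟩ := avS_asy h hb E
  obtain ⟨B', hB'⟩ := avS_bound h hb E
  have hB2 : ∀ᶠ v in cofinite, |-avS m G a b E v - ((0 : ℤ) : ℝ) -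
      nrv (psiO (𝓞 E) m) v| * Real.sqrt (nm v) ≤ B := by
    filter_upwards [hB] with v hv
    rw [Int.cast_zero, sub_zero]
    exact hv
  have h1 := natural_nr (psiO_monic _ m) (psiO_sep E) 0 hB2 hB' R
  rw [rank_eq] at h1
  exact h1

end

end Pool.Agent.Y707.SQ
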